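import Mathlib

/-!
# Groups: cosets of subgroups of index three contain squares
-/

set_option autoImplicit false

namespace KS6_21.MC

theorem key_perm : ∀ p1 p2 : Equiv.Perm (Fin 3), p1 0 = 1 → p2 0 = 2 → ∀ j : Fin 3,
    (1 * 1 : Equiv.Perm (Fin 3)) 0 = j ∨ (p1 * p1) 0 = j ∨ ((p1 * p1) * (p1 * p1)) 0 = j ∨
    (p2 * p2) 0 = j ∨ ((p2 * p2) * (p2 * p2)) 0 = j ∨ ((p1 * p2) * (p1 * p2)) 0 = j ∨
    ((p2 * p1) * (p2 * p1)) 0 = j := by decide

/-- Every left coset of a subgroup of index three contains a square. -/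
theorem exists_square {G : Type*} [Group G] (N : Subgroup G) (hN : N.index = 3)
    (w : G) : ∃ h : G, w⁻¹ * (h * h) ∈ N := by
  have hc : Nat.card (G ⧸ N) = 3 := hN
  haveI : Finite (G ⧸ N) := Nat.finite_of_card_ne_zero (by omega)
  let e0 : (G ⧸ N) ≃ Fin 3 := (Finite.equivFin (G ⧸ N)).trans (finCongr hc)
  let e : (G ⧸ N) ≃ Fin 3 := e0.trans (Equiv.swap (e0 ((1 : G) : G ⧸ N)) 0)
  have he : e ((1 : G) : G ⧸ N) = 0 := by simp [e]
  let ψ : G →* Equiv.Perm (Fin 3) :=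
    (e.permCongrHom : Equiv.Perm (G ⧸ N) →* Equiv.Perm (Fin 3)).comp (MulAction.toPermHom G (G ⧸ N))
  have hψ : ∀ g : G, ψ g 0 = e (g : G ⧸ N) := by
    intro g
    have h1 : e.symm 0 = ((1 : G) : G ⧸ N) := by rw [← he, e.symm_apply_apply]
    change e ((MulAction.toPermHom G (G ⧸ N) g) (e.symm 0)) = _
    rw [h1]
    change e (g • ((1 : G) : G ⧸ N)) = _
    rw [MulAction.Quotient.smul_coe, smul_eq_mul, mul_one]
  obtain ⟨g1, hg1⟩ := QuotientGroup.mk_surjective (e.symm 1)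
  obtain ⟨g2, hg2⟩ := QuotientGroup.mk_surjective (e.symm 2)
  have p1 : ψ g1 0 = 1 := by
    rw [hψ, hg1, e.apply_symm_apply]
  have p2 : ψ g2 0 = 2 := by
    rw [hψ, hg2, e.apply_symm_apply]
  have fin : ∀ h : G, (ψ h * ψ h) 0 = e (w : G ⧸ N) → w⁻¹ * (h * h) ∈ N := by
    intro h hh
    rw [← map_mul, hψ] at hh
    exact QuotientGroup.eq.1 (e.injective hh).symm
  rcases key_perm (ψ g1) (ψ g2) p1 p2 (e (w : G ⧸ N)) with h | h | h | h | h | h | h
  · exact ⟨1, fin 1 (by rw [map_one]; exact h)⟩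
  · exact ⟨g1, fin g1 h⟩
  · exact ⟨g1 * g1, fin _ (by rw [map_mul]; exact h)⟩
  · exact ⟨g2, fin g2 h⟩
  · exact ⟨g2 * g2, fin _ (by rw [map_mul]; exact h)⟩
  · exact ⟨g1 * g2, fin _ (by rw [map_mul]; exact h)⟩
  · exact ⟨g2 * g1, fin _ (by rw [map_mul]; exact h)⟩

/-- The fibres of a function with `T g = T h ↔ g⁻¹ h ∈ C` are the left cosets of a subgroup. -/
theorem exists_sub {G α : Type*} [Group G] (T : G → α) (C : Set G)
    (hT : ∀ g h, T g = T h ↔ g⁻¹ * h ∈ C) : ∃ N : Subgroup G, (N : Set G) = C := by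
  have h1 : ∀ c, c ∈ C ↔ T 1 = T c := by
    intro c
    rw [hT]
    simp
  refine ⟨⟨⟨⟨C, ?_⟩, ?_⟩, ?_⟩, rfl⟩
  · intro c d hc hd
    rw [h1] at hc ⊢
    rw [hc, hT]
    simpa using hd
  · change (1 : G) ∈ C
    rw [h1]
  · intro c hc
    change c⁻¹ ∈ C
    have : T c = T 1 := ((h1 c).1 hc).symm
    rw [hT, mul_one] at this
    exact this

theorem index_le {G α : Type*} [Group G] (T : G → α) (N : Subgroup G)
    (hT : ∀ g h, T g = T h ↔ g⁻¹ * h ∈ N) {β : Type*} [DecidableEq β] (r : α → β)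
    (hr : ∀ g h, r (T g) = r (T h) → T g = T h)
    (s : Finset β) (hs : ∀ g, r (T g) ∈ s) : N.index ≤ s.card ∧ N.index ≠ 0 := by
  let f : G ⧸ N → s := Quotient.lift (fun g : G => (⟨r (T g), hs g⟩ : s)) (by
    intro g h hgh
    have : T g = T h := (hT g h).2 (QuotientGroup.leftRel_apply.1 hgh)
    simp [this])
  have hf : Function.Injective f := by
    intro x y
    refine Quotient.inductionOn₂ x y ?_
    intro g h hgh
    have h1 : r (T g) = r (T h) := congrArg Subtype.val hgh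
    exact QuotientGroup.eq.2 ((hT g h).1 (hr g h h1))
  haveI : Finite (G ⧸ N) := Finite.of_injective f hf
  constructor
  · have h2 := Nat.card_le_card_of_injective f hf
    rw [Nat.card_eq_fintype_card (α := s), Fintype.card_coe] at h2
    exact h2
  · have h3 : N.index = Nat.card (G ⧸ N) := rfl
    rw [h3]
    exact Nat.card_pos.ne'

end KS6_21.MC
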