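import Pool.Graph.R_pool_sql_team_seeded_64922ed1.Results.MP_91138c_lc.SingletonCode

/-!
# Codes with two-dimensional check space and distance two
-/

set_option autoImplicit false

open scoped BigOperators
open Pool.Agent.Results.MP_91138c_lc.SingletonCode

set_option linter.unusedSectionVars false
set_option linter.unusedSimpArgs false

namespace KS6_21.MC

variable {G : Type} [Group G] [Fintype G] [DecidableEq G]

theorem omega_single' (i : G) (a : F2 × F2) (v : Pauli G) :
    omega (Pi.single i a) v = a.1 * (v i).2 + a.2 * (v i).1 := omega_single i a v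

theorem single_ne {i j : G} (h : j ≠ i) (a : F2 × F2) : (Pi.single i a : Pauli G) j = 0 := by
  simp [Pi.single_apply, h]

theorem weight_single (i : G) (a : F2 × F2) : weight (Pi.single i a : Pauli G) ≤ 1 := by
  unfold weight
  rw [Finset.card_le_one]
  intro x hx y hy
  simp only [Finset.mem_filter, Finset.mem_univ, true_and] at hx hy
  have h1 : x = i := by
    by_contra h
    exact hx (single_ne h a)
  have h2 : y = i := by
    by_contra h
    exact hy (single_ne h a)
  rw [h1, h2]

/-- Three elements of a two-dimensional check space are dependent. -/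
theorem dep {S : G → Pauli G} (hr : Module.finrank F2 (spanV S) = 2)
    (x : Fin 3 → Pauli G) (hx : ∀ i, x i ∈ spanV S)
    (h : ∀ c : Fin 3 → F2, ∑ i, c i • x i = 0 → ∀ i, c i = 0) : False := by
  have hli : LinearIndependent F2 (fun i => (⟨x i, hx i⟩ : spanV S)) := by
    rw [Fintype.linearIndependent_iff]
    intro c hc
    apply h c
    have h1 := congrArg (fun z : spanV S => (z : Pauli G)) hc
    simpa using h1
  have := hli.fintype_card_le_finrank
  rw [hr, Fintype.card_fin] at this
  omega

theorem key_local : ∀ (a b : F2 × F2) (s t : F2), a ≠ 0 → b ≠ 0 → a ≠ b →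
    s • a + t • b = 0 → s = 0 ∧ t = 0 := by decide

/-- A nonzero element of `V` vanishing at `q` gives an element of `V` supported at `q`. -/
theorem exists_single {S : G → Pauli G} (hr : Module.finrank F2 (spanV S) = 2)
    (hd : 2 ≤ codeD S) {v : Pauli G} (hv : v ∈ spanV S) (hv0 : v ≠ 0) (q : G) (hq : v q = 0) :
    ∃ p : F2 × F2, p ≠ 0 ∧ (Pi.single q p : Pauli G) ∈ spanV S := by
  have hone : ∀ w ∈ spanV S, ∀ w' ∈ spanV S, w q ≠ 0 → w' q ≠ 0 → w q = w' q := by
    intro w hw w' hw' h1 h2
    by_contra hne
    refine dep hr ![v, w, w'] ?_ ?_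
    · intro i
      fin_cases i
      · exact hv
      · exact hw
      · exact hw'
    · intro c hc
      rw [Fin.sum_univ_three] at hc
      simp only [Matrix.cons_val_zero, Matrix.cons_val_one, Matrix.cons_val_two,
        Matrix.head_cons, Matrix.tail_cons, Matrix.cons_val] at hc
      have h3 := congrFun hc q
      simp only [Pi.add_apply, Pi.smul_apply, hq, smul_zero, zero_add, Pi.zero_apply] at h3
      obtain ⟨h4, h5⟩ := key_local _ _ _ _ h1 h2 hne h3
      rw [h4, h5, zero_smul, zero_smul, add_zero, add_zero] at hc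
      have h6 : c 0 = 0 := (smul_eq_zero.1 hc).resolve_right hv0
      intro i
      fin_cases i
      · exact h6
      · exact h4
      · exact h5
  obtain ⟨p, hp, hpw⟩ : ∃ p : F2 × F2, p ≠ 0 ∧ ∀ w ∈ spanV S, p.1 * (w q).2 + p.2 * (w q).1 = 0 := by
    by_cases hall : ∀ w ∈ spanV S, w q = 0
    · refine ⟨(1, 0), by decide, fun w hw => ?_⟩
      rw [hall w hw]
      simp
    · push Not at hall
      obtain ⟨w0, hw0, hw0q⟩ := hall
      refine ⟨w0 q, hw0q, fun w hw => ?_⟩
      by_cases hwq : w q = 0
      · rw [hwq]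
        simp
      · rw [hone w hw w0 hw0 hwq hw0q, mul_comm]
        exact two_eq_zero _
  refine ⟨p, hp, ?_⟩
  by_contra hn
  have h1 : codeD S ≤ weight (Pi.single q p : Pauli G) := by
    refine Nat.sInf_le ⟨_, fun g => ?_, hn, rfl⟩
    rw [omega_single']
    exact hpw _ (Submodule.subset_span ⟨g, rfl⟩)
  have h2 := weight_single q p
  omega

/-- The restriction of the check space to every qubit is injective. -/
theorem restrict_inj {S : G → Pauli G} (h3 : 3 ≤ Fintype.card G)
    (hr : Module.finrank F2 (spanV S) = 2) (hd : 2 ≤ codeD S) {v : Pauli G}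
    (hv : v ∈ spanV S) (q : G) (hq : v q = 0) : v = 0 := by
  by_contra hv0
  obtain ⟨p, hp, hpV⟩ := exists_single hr hd hv hv0 q hq
  obtain ⟨a, b, c, hab, hac, hbc⟩ := Fintype.two_lt_card_iff.1 (show 2 < Fintype.card G by omega)
  have hs : ∀ x, ∃ p : F2 × F2, p ≠ 0 ∧ (Pi.single x p : Pauli G) ∈ spanV S := by
    intro x
    by_cases hx : x = q
    · subst hx
      exact ⟨p, hp, hpV⟩
    · refine exists_single hr hd hpV ?_ x (single_ne hx p)
      intro h
      have := congrFun h q
      rw [Pi.single_eq_same] at this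
      exact hp this
  choose P hP hPV using hs
  refine dep hr ![Pi.single a (P a), Pi.single b (P b), Pi.single c (P c)] ?_ ?_
  · intro i
    fin_cases i
    · exact hPV a
    · exact hPV b
    · exact hPV c
  · intro d hd'
    rw [Fin.sum_univ_three] at hd'
    simp only [Matrix.cons_val_zero, Matrix.cons_val_one, Matrix.cons_val_two,
      Matrix.head_cons, Matrix.tail_cons, Matrix.cons_val] at hd'
    have ea := congrFun hd' a
    have eb := congrFun hd' b
    have ec := congrFun hd' c
    simp only [Pi.add_apply, Pi.smul_apply, Pi.single_eq_same, Pi.zero_apply,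
      Pi.single_eq_of_ne hab, Pi.single_eq_of_ne hac, Pi.single_eq_of_ne hbc,
      Pi.single_eq_of_ne hab.symm, Pi.single_eq_of_ne hac.symm, Pi.single_eq_of_ne hbc.symm,
      smul_zero, add_zero, zero_add] at ea eb ec
    intro i
    fin_cases i
    · exact (smul_eq_zero.1 ea).resolve_right (hP a)
    · exact (smul_eq_zero.1 eb).resolve_right (hP b)
    · exact (smul_eq_zero.1 ec).resolve_right (hP c)

/-- Two checks which agree at one qubit are equal. -/
theorem sep {S : G → Pauli G} (h3 : 3 ≤ Fintype.card G)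
    (hr : Module.finrank F2 (spanV S) = 2) (hd : 2 ≤ codeD S) {g h : G} (q : G)
    (hq : S g q = S h q) : S g = S h := by
  have h1 : S g - S h ∈ spanV S :=
    Submodule.sub_mem _ (Submodule.subset_span ⟨g, rfl⟩) (Submodule.subset_span ⟨h, rfl⟩)
  have h2 := restrict_inj h3 hr hd h1 q (by rw [Pi.sub_apply, hq, sub_self])
  exact sub_eq_zero.1 h2

/-- The checks are not all equal. -/
theorem not_const {S : G → Pauli G} (hr : Module.finrank F2 (spanV S) = 2) (v : Pauli G)
    (hv : ∀ g, S g = v) : False := by
  have h : spanV S ≤ Submodule.span F2 (Set.range ![v]) := by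
    unfold spanV
    rw [Submodule.span_le]
    rintro _ ⟨g, rfl⟩
    rw [hv g]
    exact Submodule.subset_span ⟨0, rfl⟩
  have h1 := Submodule.finrank_mono h
  have h2 := finrank_range_le_card (R := F2) ![v]
  simp only [Set.finrank, Fintype.card_fin] at h2
  omega

/-- **Codes from two checks.** -/
theorem two_checks {S : G → Pauli G} (H : Set G) (P0 P1 : Pauli G) (h6 : 6 ≤ Fintype.card G)
    (hev : ((Fintype.card G : ℕ) : F2) = 0)
    (h0 : ∀ g ∈ H, S g = P0) (h1 : ∀ g ∉ H, S g = P1) (hH : ∃ g, g ∈ H) (hH' : ∃ g, g ∉ H)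
    (hP0 : ∀ q, P0 q ≠ 0) (hP1 : ∀ q, P1 q ≠ 0) (hP : ∀ q, P0 q ≠ P1 q) :
    Commuting S ∧ codeK S = Fintype.card G - 2 ∧ codeD S = 2 := by
  classical
  obtain ⟨g0, hg0⟩ := hH
  obtain ⟨g1, hg1⟩ := hH'
  have c0 : ∀ P : Pauli G, omega P P = 0 := by
    intro P
    unfold omega
    refine Finset.sum_eq_zero fun q _ => ?_
    rw [mul_comm]
    exact two_eq_zero _
  have kd : ∀ a b : F2 × F2, a ≠ 0 → b ≠ 0 → a ≠ b → a.1 * b.2 + a.2 * b.1 = 1 := by decide
  have c1 : omega P0 P1 = 0 := by
    unfold omega
    rw [Finset.sum_congr rfl fun q _ => kd _ _ (hP0 q) (hP1 q) (hP q)]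
    simpa using hev
  have c2 : omega P1 P0 = 0 := by
    unfold omega
    rw [Finset.sum_congr rfl fun q _ => kd _ _ (hP1 q) (hP0 q) (hP q).symm]
    simpa using hev
  have hcomm : Commuting S := by
    intro g h
    by_cases hg : g ∈ H <;> by_cases hh : h ∈ H
    · rw [h0 g hg, h0 h hh]
      exact c0 _
    · rw [h0 g hg, h1 h hh]
      exact c1
    · rw [h1 g hg, h0 h hh]
      exact c2
    · rw [h1 g hg, h1 h hh]
      exact c0 _
  have hle : Module.finrank F2 (spanV S) ≤ 2 := by
    have h : spanV S ≤ Submodule.span F2 (Set.range ![P0, P1]) := by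
      unfold spanV
      rw [Submodule.span_le]
      rintro _ ⟨g, rfl⟩
      by_cases hg : g ∈ H
      · rw [h0 g hg]
        exact Submodule.subset_span ⟨0, rfl⟩
      · rw [h1 g hg]
        exact Submodule.subset_span ⟨1, rfl⟩
    refine (Submodule.finrank_mono h).trans ?_
    have := finrank_range_le_card (R := F2) ![P0, P1]
    simpa [Set.finrank] using this
  have hk : Fintype.card G - 2 ≤ codeK S := by
    unfold codeK
    omega
  have hd : 2 ≤ codeD S := by
    unfold codeD
    obtain ⟨e, he⟩ := exists_emb (ι := G) 3 2 (by omega)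
    obtain ⟨u, hu1, hu2, -⟩ := exists_logical S he (by omega) (by omega)
    refine le_csInf ⟨_, u, hu1, hu2, rfl⟩ ?_
    rintro w ⟨u, hu1, hu2, rfl⟩
    by_contra hlt
    have hle : (Finset.univ.filter fun i => u i ≠ 0).card ≤ 1 := by
      unfold weight at hlt
      omega
    rw [Finset.card_le_one] at hle
    by_cases hu0 : u = 0
    · exact hu2 (hu0 ▸ Submodule.zero_mem _)
    · obtain ⟨i, hi⟩ : ∃ i, u i ≠ 0 := by
        by_contra h
        push Not at h
        exact hu0 (funext h)
      have hu : u = Pi.single i (u i) := by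
        funext j
        by_cases hj : j = i
        · subst hj
          simp
        · rw [Pi.single_eq_of_ne hj]
          by_contra hne
          exact hj (hle j (by simpa using hne) i (by simpa using hi))
      have e0 : omega u P0 = 0 := by
        rw [← h0 g0 hg0]
        exact hu1 g0
      have e1 : omega u P1 = 0 := by
        rw [← h1 g1 hg1]
        exact hu1 g1
      rw [hu, omega_single'] at e0 e1
      have key : ∀ a b c : F2 × F2, b ≠ 0 → c ≠ 0 → b ≠ c → a.1 * b.2 + a.2 * b.1 = 0 →
          a.1 * c.2 + a.2 * c.1 = 0 → a = 0 := by decide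
      exact hi (key _ _ _ (hP0 i) (hP1 i) (hP i) e0 e1)
  obtain ⟨-, h4, h2⟩ := rigid S h6 le_rfl hk hd
  exact ⟨hcomm, h4, h2⟩

end KS6_21.MC
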