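import Pool.Agent.KS6_21.MC.Lin
import Pool.Agent.KS6_21.MC.Grp

/-!
# Classification of the mirror codes with parameters `[[n, n - 2, 2]]`
-/

set_option autoImplicit false

open scoped BigOperators
open Pool.Agent.Results.MP_91138c_lc.SingletonCode

set_option linter.unusedSectionVars false
set_option linter.unusedSimpArgs false

namespace KS6_21.MC

variable {G : Type} [Group G] [Fintype G] [DecidableEq G]

theorem sym_Z (A B : Finset G) (g q : G) :
    (symCheck A B g q).2 = if q * g⁻¹ ∈ A then 1 else 0 := by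
  have h : q ∈ A.image (fun a => a * g) ↔ q * g⁻¹ ∈ A := by
    rw [Finset.mem_image]
    constructor
    · rintro ⟨a, ha, rfl⟩
      simpa using ha
    · intro h
      exact ⟨_, h, by simp⟩
  simp only [symCheck, h]

theorem sym_X (A B : Finset G) (g q : G) :
    (symCheck A B g q).1 = if q * g ∈ B then 1 else 0 := by
  have h : q ∈ B.image (fun b => b * g⁻¹) ↔ q * g ∈ B := by
    rw [Finset.mem_image]
    constructor
    · rintro ⟨a, ha, rfl⟩
      simpa using ha
    · intro h
      exact ⟨_, h, by simp⟩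
  simp only [symCheck, h]

theorem asym_Z (A B : Finset G) (g q : G) :
    (asymCheck A B g q).2 = if q * g⁻¹ ∈ A then 1 else 0 := by
  have h : q ∈ A.image (fun a => a * g) ↔ q * g⁻¹ ∈ A := by
    rw [Finset.mem_image]
    constructor
    · rintro ⟨a, ha, rfl⟩
      simpa using ha
    · intro h
      exact ⟨_, h, by simp⟩
  simp only [asymCheck, h]

theorem asym_X (A B : Finset G) (g q : G) :
    (asymCheck A B g q).1 = if g * q ∈ B then 1 else 0 := by
  have h : q ∈ B.image (fun b => g⁻¹ * b) ↔ g * q ∈ B := by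
    rw [Finset.mem_image]
    constructor
    · rintro ⟨a, ha, rfl⟩
      simpa using ha
    · intro h
      exact ⟨_, h, by simp⟩
  simp only [asymCheck, h]

/-- `C` is `H`, the complement of `H`, or everything. -/
def Piece (H : Subgroup G) (C : Finset G) : Prop :=
  (∀ x, x ∈ C ↔ x ∈ H) ∨ (∀ x, x ∈ C ↔ x ∉ H) ∨ ∀ x, x ∈ C

/-- A set whose complement is a coset of an index two subgroup. -/
theorem piece_of (N : Subgroup G) (hN : N.index = 2) (C : Finset G) (x : G)
    (h : ∀ a, a ∉ C ↔ x⁻¹ * a ∈ N) : Piece N C := by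
  by_cases hx : x ∈ N
  · right
    left
    intro a
    have h1 := h a
    rw [Subgroup.mul_mem_cancel_left N (inv_mem hx)] at h1
    tauto
  · left
    intro a
    have h1 := h a
    rw [Subgroup.mul_mem_iff_of_index_two hN, inv_mem_iff] at h1
    tauto

theorem nzpt : ∀ p : F2 × F2, p ≠ 0 → p ∈ ({(0, 1), (1, 0), (1, 1)} : Finset (F2 × F2)) := by
  decide

theorem nzpt1 : ∀ p : F2 × F2, p.1 = 1 → p ∈ ({(1, 0), (1, 1)} : Finset (F2 × F2)) := by
  decide

theorem nzpt2 : ∀ p : F2 × F2, p.2 = 1 → p ∈ ({(0, 1), (1, 1)} : Finset (F2 × F2)) := by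
  decide

theorem ite_z {p : Prop} [Decidable p] : (if p then (1 : F2) else 0) = 0 ↔ ¬ p := by
  split_ifs with h <;> simp [h]

theorem pt0 : ∀ a b : F2 × F2, a ≠ 0 → b ≠ 0 → a.1 = 0 → (b.1 = 0 ↔ a = b) := by decide

theorem pt1 : ∀ a b : F2 × F2, a ≠ 0 → b ≠ 0 → a.2 = 0 → (b.2 = 0 ↔ a = b) := by decide

/-- The index is two when it lies between two and three and is not three. -/
theorem idx (N : Subgroup G) (S : G → Pauli G) (hr : Module.finrank F2 (spanV S) = 2)
    (T : G → Pauli G) (hST : ∀ g, S g = T g ∨ S g = T g⁻¹)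
    (hT : ∀ g h, T g = T h ↔ g⁻¹ * h ∈ N) : N.index ≠ 1 := by
  intro h1
  rw [Subgroup.index_eq_one] at h1
  have h2 : ∀ g, T g = T 1 := fun g => ((hT 1 g).2 (by rw [h1]; trivial)).symm
  refine not_const hr (T 1) fun g => ?_
  rcases hST g with h | h
  · rw [h, h2]
  · rw [h, h2]

theorem symB (B : Finset G) (S : G → Pauli G) (hsep : ∀ q g h, S g q = S h q → S g = S h)
    (hnz : ∀ g q, S g q ≠ 0) (hX : ∀ g q, (S g q).1 = if q * g ∈ B then 1 else 0) (y : G)
    (hy : y ∉ B) : ∃ N : Subgroup G, (∀ g h, S g = S h ↔ g⁻¹ * h ∈ N) ∧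
      ∀ b, b ∉ B ↔ y⁻¹ * b ∈ N := by
  have h1 : ∀ g h, S g = S h ↔ g⁻¹ * h ∈ {c : G | y * c ∉ B} := by
    intro g h
    have e1 : (S g (y * g⁻¹)).1 = 0 := by
      rw [hX, ite_z]
      simpa using hy
    have e2 := pt0 _ (S h (y * g⁻¹)) (hnz g (y * g⁻¹)) (hnz _ _) e1
    rw [hX, ite_z] at e2
    rw [Set.mem_ofPred_eq, ← mul_assoc, e2]
    exact ⟨fun h => by rw [h], fun h => hsep _ _ _ h⟩
  obtain ⟨N, hN⟩ := exists_sub S _ h1
  refine ⟨N, fun g h => ?_, fun a => ?_⟩
  · rw [h1, ← hN, SetLike.mem_coe]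
  · have h2 : y⁻¹ * a ∈ (N : Set G) ↔ y⁻¹ * a ∈ N := Iff.rfl
    rw [← h2, hN, Set.mem_ofPred_eq, mul_inv_cancel_left]

theorem asymB (B : Finset G) (S : G → Pauli G) (hsep : ∀ q g h, S g q = S h q → S g = S h)
    (hnz : ∀ g q, S g q ≠ 0) (hX : ∀ g q, (S g q).1 = if g * q ∈ B then 1 else 0) (y : G)
    (hy : y ∉ B) : ∃ N : Subgroup G, (∀ g h, S g⁻¹ = S h⁻¹ ↔ g⁻¹ * h ∈ N) ∧
      ∀ b, b ∉ B ↔ b * y⁻¹ ∈ N := by
  have h1 : ∀ g h, S g⁻¹ = S h⁻¹ ↔ g⁻¹ * h ∈ {c : G | c⁻¹ * y ∉ B} := by
    intro g h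
    have e1 : (S g⁻¹ (g * y)).1 = 0 := by
      rw [hX, ite_z]
      simpa using hy
    have e2 := pt0 _ (S h⁻¹ (g * y)) (hnz g⁻¹ (g * y)) (hnz _ _) e1
    rw [hX, ite_z] at e2
    have e3 : (g⁻¹ * h)⁻¹ * y = h⁻¹ * (g * y) := by group
    rw [Set.mem_ofPred_eq, e3, e2]
    exact ⟨fun h => by rw [h], fun h => hsep _ _ _ h⟩
  obtain ⟨N, hN⟩ := exists_sub (fun g => S g⁻¹) _ h1
  refine ⟨N, fun g h => ?_, fun a => ?_⟩
  · rw [h1, ← hN, SetLike.mem_coe]
  · have h2 : a * y⁻¹ ∈ N ↔ (a * y⁻¹)⁻¹ ∈ (N : Set G) := inv_mem_iff.symm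
    have h3 : (a * y⁻¹)⁻¹⁻¹ * y = a := by group
    rw [h2, hN, Set.mem_ofPred_eq, h3]

/-- The abstract classification. `X g q` says that the `X` part at `q` of the check `g` is `1`. -/
theorem forward (A B : Finset G) (S : G → Pauli G) (h3 : 3 ≤ Fintype.card G)
    (hr : Module.finrank F2 (spanV S) = 2) (hd : 2 ≤ codeD S)
    (hZ : ∀ g q, (S g q).2 = if q * g⁻¹ ∈ A then 1 else 0)
    (hX : (∀ g q, (S g q).1 = if q * g ∈ B then 1 else 0) ∨
      (∀ g q, (S g q).1 = if g * q ∈ B then 1 else 0)) :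
    ∃ H : Subgroup G, H.index = 2 ∧ A ≠ B ∧ Piece H A ∧ Piece H B := by
  have hsep : ∀ q g h, S g q = S h q → S g = S h := fun q g h => sep h3 hr hd q
  have hnz : ∀ g q, S g q ≠ 0 := by
    intro g q h
    have h1 : S g = 0 := restrict_inj h3 hr hd (Submodule.subset_span ⟨g, rfl⟩) q h
    have hA : ∀ a, a ∉ A := by
      intro a ha
      have h2 := hZ g (a * g)
      rw [h1] at h2
      simp [ha] at h2
    have hB : ∀ b, b ∉ B := by
      intro b hb
      rcases hX with hX | hX
      · have h2 := hX g (b * g⁻¹)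
        rw [h1] at h2
        simp [hb] at h2
      · have h2 := hX g (g⁻¹ * b)
        rw [h1] at h2
        simp [hb] at h2
    refine not_const hr 0 fun g' => funext fun q' => Prod.ext ?_ ?_
    · rcases hX with hX | hX
      · rw [hX, if_neg (hB _)]
        rfl
      · rw [hX, if_neg (hB _)]
        rfl
    · rw [hZ, if_neg (hA _)]
      rfl
  have hAB : A ≠ B := by
    rintro rfl
    have hall : ∀ a, a ∈ A := by
      intro a
      by_contra ha
      apply hnz 1 a
      refine Prod.ext ?_ ?_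
      · rcases hX with hX | hX
        · rw [hX, if_neg (by simpa using ha)]
          rfl
        · rw [hX, if_neg (by simpa using ha)]
          rfl
      · rw [hZ, if_neg (by simpa using ha)]
        rfl
    refine not_const hr (fun _ => (1, 1)) fun g' => funext fun q' => Prod.ext ?_ ?_
    · rcases hX with hX | hX
      · rw [hX, if_pos (hall _)]
      · rw [hX, if_pos (hall _)]
    · rw [hZ, if_pos (hall _)]
  -- the structure given by a point outside `A`
  have hAs : ∀ x, x ∉ A → ∃ N : Subgroup G, (∀ g h, S g⁻¹ = S h⁻¹ ↔ g⁻¹ * h ∈ N) ∧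
      ∀ a, a ∉ A ↔ x⁻¹ * a ∈ N := by
    intro x hx
    have h1 : ∀ g h, S g⁻¹ = S h⁻¹ ↔ g⁻¹ * h ∈ {c : G | x * c ∉ A} := by
      intro g h
      have e1 : (S g⁻¹ (x * g⁻¹)).2 = 0 := by
        rw [hZ, ite_z]
        simpa using hx
      have e2 := pt1 _ (S h⁻¹ (x * g⁻¹)) (hnz g⁻¹ (x * g⁻¹)) (hnz _ _) e1
      rw [hZ, ite_z, inv_inv] at e2
      rw [Set.mem_ofPred_eq, ← mul_assoc, e2]
      exact ⟨fun h => by rw [h], fun h => hsep _ _ _ h⟩
    obtain ⟨N, hN⟩ := exists_sub (fun g => S g⁻¹) _ h1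
    refine ⟨N, fun g h => ?_, fun a => ?_⟩
    · rw [h1, ← hN, SetLike.mem_coe]
    · have h2 : x⁻¹ * a ∈ (N : Set G) ↔ x⁻¹ * a ∈ N := Iff.rfl
      rw [← h2, hN, Set.mem_ofPred_eq, mul_inv_cancel_left]
  have hTnz : ∀ g : G, S g⁻¹ 1 ≠ 0 := fun g => hnz _ _
  by_cases hA : ∀ a, a ∈ A
  · -- `A` is everything
    have hB : ∃ y, y ∉ B := by
      by_contra h
      push Not at h
      exact hAB (by ext a; simp [hA, h])
    obtain ⟨y, hy⟩ := hB
    have hA1 : ∀ g, S g 1 ∈ ({(0, 1), (1, 1)} : Finset (F2 × F2)) := by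
      intro g
      apply nzpt2
      rw [hZ, if_pos (hA _)]
    rcases hX with hX | hX
    · obtain ⟨N, hT, hN⟩ := symB B S hsep hnz hX y hy
      obtain ⟨i1, i2⟩ := index_le S N hT (fun v => v 1) (fun g h hh => hsep 1 g h hh) _ hA1
      have i3 := idx N S hr S (fun g => Or.inl rfl) hT
      have i4 : (({(0, 1), (1, 1)} : Finset (F2 × F2))).card = 2 := by decide
      have i5 : N.index = 2 := by omega
      exact ⟨N, i5, hAB, Or.inr (Or.inr hA), piece_of N i5 B y hN⟩
    · obtain ⟨N, hT, hN⟩ := asymB B S hsep hnz hX y hy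
      obtain ⟨i1, i2⟩ := index_le (fun g => S g⁻¹) N hT (fun v => v 1)
        (fun g h hh => hsep 1 _ _ hh) _ (fun g => hA1 g⁻¹)
      have i3 := idx N S hr (fun g => S g⁻¹) (fun g => Or.inr (by rw [inv_inv])) hT
      have i4 : (({(0, 1), (1, 1)} : Finset (F2 × F2))).card = 2 := by decide
      have i5 : N.index = 2 := by omega
      refine ⟨N, i5, hAB, Or.inr (Or.inr hA), piece_of N i5 B y fun b => ?_⟩
      rw [hN, Subgroup.mul_mem_iff_of_index_two i5, Subgroup.mul_mem_iff_of_index_two i5]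
      tauto
  · push Not at hA
    obtain ⟨x, hx⟩ := hA
    obtain ⟨N, hT, hN⟩ := hAs x hx
    have i3 := idx N S hr (fun g => S g⁻¹) (fun g => Or.inr (by rw [inv_inv])) hT
    by_cases hB : ∀ b, b ∈ B
    · have hB1 : ∀ g, S g 1 ∈ ({(1, 0), (1, 1)} : Finset (F2 × F2)) := by
        intro g
        apply nzpt1
        rcases hX with hX | hX
        · rw [hX, if_pos (hB _)]
        · rw [hX, if_pos (hB _)]
      obtain ⟨i1, i2⟩ := index_le (fun g => S g⁻¹) N hT (fun v => v 1)
        (fun g h hh => hsep 1 _ _ hh) _ (fun g => hB1 g⁻¹)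
      have i4 : (({(1, 0), (1, 1)} : Finset (F2 × F2))).card = 2 := by decide
      have i5 : N.index = 2 := by omega
      exact ⟨N, i5, hAB, piece_of N i5 A x hN, Or.inr (Or.inr hB)⟩
    · push Not at hB
      obtain ⟨y, hy⟩ := hB
      obtain ⟨i1, i2⟩ := index_le (fun g => S g⁻¹) N hT (fun v => v 1)
        (fun g h hh => hsep 1 _ _ hh) _ (fun g => nzpt _ (hnz g⁻¹ 1))
      have i4 : (({(0, 1), (1, 0), (1, 1)} : Finset (F2 × F2))).card = 3 := by decide
      rcases hX with hX | hX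
      · obtain ⟨N', hT', hN'⟩ := symB B S hsep hnz hX y hy
        have hNN : N' = N := by
          ext c
          have e1 := hT 1 c⁻¹
          have e2 := hT' 1 c
          rw [inv_one, inv_inv, one_mul, inv_mem_iff] at e1
          rw [inv_one, one_mul] at e2
          exact e2.symm.trans e1
        subst hNN
        by_cases i5 : N'.index = 2
        · exact ⟨N', i5, hAB, piece_of N' i5 A x hN, piece_of N' i5 B y hN'⟩
        · exfalso
          obtain ⟨h, hh⟩ := exists_square N' (by omega) (x⁻¹ * y)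
          apply hnz h (x * h)
          refine Prod.ext ?_ ?_
          · rw [hX]
            refine ite_z.2 ((hN' _).2 ?_)
            convert hh using 1
            group
          · rw [hZ]
            refine ite_z.2 ?_
            simpa using hx
      · obtain ⟨N', hT', hN'⟩ := asymB B S hsep hnz hX y hy
        have hNN : N' = N := by
          ext c
          have e1 := hT 1 c
          have e2 := hT' 1 c
          rw [inv_one, one_mul] at e1 e2
          exact e2.symm.trans e1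
        subst hNN
        by_cases i5 : N'.index = 2
        · refine ⟨N', i5, hAB, piece_of N' i5 A x hN, piece_of N' i5 B y fun b => ?_⟩
          rw [hN', Subgroup.mul_mem_iff_of_index_two i5, Subgroup.mul_mem_iff_of_index_two i5]
          tauto
        · exfalso
          obtain ⟨h, hh⟩ := exists_square N' (by omega) (y * x)⁻¹
          apply hnz (h⁻¹ * x⁻¹) (x * (h⁻¹ * x⁻¹))
          refine Prod.ext ?_ ?_
          · rw [hX]
            refine ite_z.2 ((hN' _).2 ?_)
            convert inv_mem hh using 1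
            group
          · rw [hZ]
            refine ite_z.2 ?_
            rw [mul_inv_cancel_right]
            exact hx

/-- The converse. -/
theorem backward (A B : Finset G) (h6 : 6 ≤ Fintype.card G) (H : Subgroup G)
    (hH : H.index = 2) (hAB : A ≠ B) (hA : Piece H A) (hB : Piece H B) :
    symCheck A B = asymCheck A B ∧ Commuting (symCheck A B) ∧
      codeK (symCheck A B) = Fintype.card G - 2 ∧ codeD (symCheck A B) = 2 := by
  classical
  have m1 : ∀ q g : G, q * g ∈ H ↔ (q ∈ H ↔ g ∈ H) :=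
    fun q g => Subgroup.mul_mem_iff_of_index_two hH
  have hp : ∀ C : Finset G, Piece H C → ∀ u v : G, (u ∈ H ↔ v ∈ H) → (u ∈ C ↔ v ∈ C) := by
    intro C hC u v huv
    rcases hC with hC | hC | hC
    · rw [hC, hC, huv]
    · rw [hC, hC, huv]
    · exact ⟨fun _ => hC _, fun _ => hC _⟩
  have heq : symCheck A B = asymCheck A B := by
    funext g q
    refine Prod.ext ?_ ?_
    · rw [sym_X, asym_X]
      refine if_congr (hp B hB _ _ ?_) rfl rfl
      rw [m1, m1]
      exact Iff.comm
    · rw [sym_Z, asym_Z]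
  refine ⟨heq, ?_⟩
  obtain ⟨g1, hg1⟩ : ∃ x, x ∉ H := by
    by_contra h
    push Not at h
    have : H = ⊤ := (Subgroup.eq_top_iff' H).2 h
    rw [this, Subgroup.index_top] at hH
    omega
  have hnz : ∀ g q, symCheck A B g q ≠ 0 := by
    intro g q h
    have hz := congrArg Prod.snd h
    have hx := congrArg Prod.fst h
    rw [sym_Z] at hz
    rw [sym_X] at hx
    have hz' := ite_z.1 hz
    have hx' := ite_z.1 hx
    have hm : q * g⁻¹ ∈ H ↔ q * g ∈ H := by rw [m1, m1, inv_mem_iff]
    rcases hA with hA | hA | hA <;> rcases hB with hB | hB | hB <;>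
      first
      | exact hz' (hA _)
      | exact hx' (hB _)
      | (rw [hA] at hz'; rw [hB] at hx'; tauto)
      | exact hAB (by ext a; rw [hA, hB])
  have hne : ∀ q, symCheck A B 1 q ≠ symCheck A B g1 q := by
    intro q h
    have hz := congrArg Prod.snd h
    have hx := congrArg Prod.fst h
    rw [sym_Z, sym_Z] at hz
    rw [sym_X, sym_X] at hx
    have k : ∀ (p r : Prop) [Decidable p] [Decidable r],
        (if p then (1 : F2) else 0) = (if r then (1 : F2) else 0) → (p ↔ r) := by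
      intro p r _ _ hpr
      by_cases h1 : p <;> by_cases h2 : r <;> simp_all
    have hz' := k _ _ hz
    have hx' := k _ _ hx
    have c1 : q * 1⁻¹ ∈ H ↔ q ∈ H := by rw [inv_one, mul_one]
    have c2 : q * 1 ∈ H ↔ q ∈ H := by rw [mul_one]
    have c3 : q * g1⁻¹ ∈ H ↔ ¬ q ∈ H := by
      rw [m1, inv_mem_iff]
      tauto
    have c4 : q * g1 ∈ H ↔ ¬ q ∈ H := by
      rw [m1]
      tauto
    rcases hA with hA | hA | hA
    · rw [hA, hA, c1, c3] at hz'
      tauto
    · rw [hA, hA, c1, c3] at hz'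
      tauto
    · rcases hB with hB | hB | hB
      · rw [hB, hB, c2, c4] at hx'
        tauto
      · rw [hB, hB, c2, c4] at hx'
        tauto
      · exact hAB (by ext a; simp [hA, hB])
  refine two_checks (H : Set G) (symCheck A B 1) (symCheck A B g1) h6 (even_card H hH) ?_ ?_
    ⟨1, H.one_mem⟩ ⟨g1, hg1⟩ (hnz 1) (hnz g1) hne
  · intro g hg
    have hg' : g ∈ H := hg
    funext q
    refine Prod.ext ?_ ?_
    · rw [sym_X, sym_X]
      refine if_congr (hp B hB _ _ ?_) rfl rfl
      rw [m1, m1]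
      simp [hg', H.one_mem]
    · rw [sym_Z, sym_Z]
      refine if_congr (hp A hA _ _ ?_) rfl rfl
      rw [m1, m1]
      simp [hg', H.one_mem]
  · intro g hg
    have hg' : g ∉ H := hg
    funext q
    refine Prod.ext ?_ ?_
    · rw [sym_X, sym_X]
      refine if_congr (hp B hB _ _ ?_) rfl rfl
      rw [m1, m1]
      simp [hg', hg1]
    · rw [sym_Z, sym_Z]
      refine if_congr (hp A hA _ _ ?_) rfl rfl
      rw [m1, m1]
      simp [hg', hg1]

theorem finrank_of {S : G → Pauli G} (h6 : 6 ≤ Fintype.card G)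
    (h : codeK S = Fintype.card G - 2) : Module.finrank F2 (spanV S) = 2 := by
  unfold codeK at h
  omega

theorem sym_iff (A B : Finset G) (h6 : 6 ≤ Fintype.card G) :
    (codeK (symCheck A B) = Fintype.card G - 2 ∧ codeD (symCheck A B) = 2) ↔
      ∃ H : Subgroup G, H.index = 2 ∧ A ≠ B ∧ Piece H A ∧ Piece H B := by
  constructor
  · rintro ⟨h1, h2⟩
    exact forward A B _ (by omega) (finrank_of h6 h1) (by omega) (sym_Z A B) (Or.inl (sym_X A B))
  · rintro ⟨H, hH, hAB, hA, hB⟩
    exact (backward A B h6 H hH hAB hA hB).2.2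

theorem asym_iff (A B : Finset G) (h6 : 6 ≤ Fintype.card G) :
    (codeK (asymCheck A B) = Fintype.card G - 2 ∧ codeD (asymCheck A B) = 2) ↔
      ∃ H : Subgroup G, H.index = 2 ∧ A ≠ B ∧ Piece H A ∧ Piece H B := by
  constructor
  · rintro ⟨h1, h2⟩
    exact forward A B _ (by omega) (finrank_of h6 h1) (by omega) (asym_Z A B)
      (Or.inr (asym_X A B))
  · rintro ⟨H, hH, hAB, hA, hB⟩
    have h := backward A B h6 H hH hAB hA hB
    rw [h.1] at h
    exact h.2.2

theorem exists_pieces (H : Subgroup G) (hH : H.index = 2) :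
    ∃ A B : Finset G, A ≠ B ∧ Piece H A ∧ Piece H B := by
  classical
  refine ⟨Finset.univ.filter (· ∈ H), Finset.univ, ?_, Or.inl (by simp),
    Or.inr (Or.inr (by simp))⟩
  intro h
  have : H = ⊤ := (Subgroup.eq_top_iff' H).2 fun x => by
    have := Finset.mem_univ x
    rw [← h] at this
    simpa using this
  rw [this, Subgroup.index_top] at hH
  omega

/-- Parameters dominating `[[N, N - 2, 2]]` do not exist. -/
theorem not_dominated {N : ℕ} (h6 : 6 ≤ N) (Q : Type) [Fintype Q] (S : Q → Pauli Q) :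
    ¬ Dominates (Fintype.card Q) (codeK S) (codeD S) N (N - 2) 2 := by
  rintro ⟨hn, hk, hd, hs⟩
  obtain ⟨e6, e4, e2⟩ := rigid S h6 hn hk (by omega)
  omega

theorem dihedral (m : ℕ) (hm : 3 ≤ m) : Nat.card (DihedralGroup m) = 2 * m ∧
    (∃ x y : DihedralGroup m, x * y ≠ y * x) ∧ ∃ H : Subgroup (DihedralGroup m), H.index = 2 := by
  refine ⟨DihedralGroup.nat_card, ⟨.sr 0, .r 1, ?_⟩, Subgroup.zpowers (.r 1), ?_⟩
  · rw [DihedralGroup.sr_mul_r, DihedralGroup.r_mul_sr]
    intro h
    have h1 : (0 + 1 : ZMod m) = 0 - 1 := by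
      injection h
    have h2 : ((2 : ℕ) : ZMod m) = 0 := by
      push_cast
      linear_combination h1
    rw [ZMod.natCast_eq_zero_iff] at h2
    have := Nat.le_of_dvd (by norm_num) h2
    omega
  · have h := (Subgroup.zpowers (DihedralGroup.r 1 : DihedralGroup m)).card_mul_index
    rw [Nat.card_zpowers, DihedralGroup.orderOf_r_one, DihedralGroup.nat_card, mul_comm 2 m] at h
    exact Nat.eq_of_mul_eq_mul_left (by omega) h

end KS6_21.MC
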